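import Mathlib
import Pool.Graph.R_pool_sql_team_seeded_f0cf7b00.H447R2.PE.Dich
import Pool.Graph.R_pool_sql_team_seeded_f0cf7b00.H900.PE.Often

set_option autoImplicit false

/-! # The number of near zeros of the sine at integers: the upper bound -/

namespace Pool.Agent.H11.NZ

open Real Pool.Agent.H447R2.PE Pool.Agent.H900.PE Filter

/-- the number of the positive integers `n ≤ N` with `n |sin n| ≤ ε` -/
noncomputable def zeros (ε : ℝ) (N : ℕ) : ℕ :=
  ((Finset.Icc 1 N).filter fun n : ℕ => (n : ℝ) * |sin n| ≤ ε).card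

theorem mono_aux (y Y : ℝ) (hy : log 3 ≤ y) (hyY : y ≤ Y) :
    y / log y ≤ (1 + 1 / log (log 3)) * (Y / log Y) := by
  obtain ⟨h1, h2⟩ := log_log_pos 3 le_rfl
  have hy1 : 1 < y := lt_of_lt_of_le h1 hy
  have hly3 : log (log 3) ≤ log y := Real.log_le_log (by linarith) hy
  have hly : 0 < log y := lt_of_lt_of_le h2 hly3
  have hlY : log y ≤ log Y := Real.log_le_log (by linarith) hyY
  have hlY0 : 0 < log Y := lt_of_lt_of_le hly hlY
  have hY0 : 0 < Y := by linarith
  have h3 : log Y ≤ log y + (Y / y - 1) := by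
    have h4 : log (Y / y) ≤ Y / y - 1 := Real.log_le_sub_one_of_pos (by positivity)
    rw [Real.log_div (by linarith) (by linarith)] at h4
    linarith
  have h5 : y * log Y ≤ y * log y + Y := by
    have h6 : y * log Y ≤ y * (log y + (Y / y - 1)) := mul_le_mul_of_nonneg_left h3 (by linarith)
    have h7 : y * (log y + (Y / y - 1)) = y * log y + Y - y := by field_simp; ring
    linarith
  have h8 : Y ≤ 1 / log (log 3) * (Y * log y) := by
    rw [one_div, inv_mul_eq_div, le_div_iff₀ h2]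
    exact mul_le_mul_of_nonneg_left hly3 hY0.le
  have h9 : y * log y ≤ Y * log y := mul_le_mul_of_nonneg_right hyY hly.le
  rw [div_le_iff₀ hly, mul_div_assoc', div_mul_eq_mul_div, le_div_iff₀ hlY0]
  calc y * log Y ≤ Y * log y + 1 / log (log 3) * (Y * log y) := by linarith
    _ = _ := by ring

/-- the nearest integer to `n / π` -/
noncomputable def mm (n : ℕ) : ℕ := (round ((n : ℝ) / π)).toNat

theorem mm_spec (n : ℕ) (hn : 4 ≤ n) :
    1 ≤ mm n ∧ mm n ≤ n ∧ |(n : ℝ) - mm n * π| ≤ π / 2 := by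
  have hn' : (4 : ℝ) ≤ n := by exact_mod_cast hn
  have hpi := Real.pi_gt_three
  have hpi4 := Real.pi_lt_four
  have h1 : 1 < (n : ℝ) / π := by rw [lt_div_iff₀ Real.pi_pos]; linarith
  have h2 := abs_le.1 (abs_sub_round ((n : ℝ) / π))
  have h3 : (1 : ℤ) ≤ round ((n : ℝ) / π) := by
    have : (0 : ℝ) < round ((n : ℝ) / π) := by linarith [h2.2]
    have : (0 : ℤ) < round ((n : ℝ) / π) := by exact_mod_cast this
    omega
  have h4 : ((mm n : ℕ) : ℤ) = round ((n : ℝ) / π) := Int.toNat_of_nonneg (by omega)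
  have h5 : ((mm n : ℕ) : ℝ) = (round ((n : ℝ) / π) : ℝ) := by exact_mod_cast congrArg (Int.cast (R := ℝ)) h4
  refine ⟨by omega, ?_, ?_⟩
  · have h6 : ((mm n : ℕ) : ℝ) ≤ n / π + 1 / 2 := by rw [h5]; linarith [h2.1]
    have h7 : (n : ℝ) / π ≤ n / 3 := div_le_div_of_nonneg_left (by linarith) (by norm_num) hpi.le
    have h8 : ((mm n : ℕ) : ℝ) ≤ n := by linarith
    exact_mod_cast h8
  · have h6 : (n : ℝ) - mm n * π = ((n : ℝ) / π - round ((n : ℝ) / π)) * π := by
      rw [h5]; field_simp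
    rw [h6, abs_mul, abs_of_pos Real.pi_pos]
    have := abs_sub_round ((n : ℝ) / π)
    nlinarith

theorem sin_near (n m : ℕ) (h : |(n : ℝ) - m * π| ≤ π / 2) :
    2 / π * |(n : ℝ) - m * π| ≤ |sin n| := by
  have h1 : |sin (n : ℝ)| = |sin ((n : ℝ) - m * π)| := by
    rw [Real.sin_sub_nat_mul_pi, abs_mul, abs_pow, abs_neg, abs_one, one_pow, one_mul]
  rw [h1]
  have h2 : |sin ((n : ℝ) - m * π)| = |sin (|(n : ℝ) - m * π|)| := by
    rcases abs_cases ((n : ℝ) - m * π) with ⟨h3, _⟩ | ⟨h3, _⟩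
    · rw [h3]
    · rw [h3, Real.sin_neg, abs_neg]
  rw [h2]
  refine le_trans ?_ (le_abs_self _)
  exact Real.mul_le_sin (abs_nonneg _) h

theorem upper (hF : Few π) (hB : PiBound) (ε : ℝ) (hε : 0 < ε) :
    ∃ C : ℝ, 0 < C ∧ ∀ N : ℕ, 3 ≤ N →
      (zeros ε N : ℝ) ≤ C * (log N / log (log N)) ^ (3 / 2 : ℝ) := by
  obtain ⟨C1, hC1, hF1⟩ := hF (π / 2 * ε) (by positivity)
  obtain ⟨C0, hC0, hB⟩ := hB
  obtain ⟨hl3, hll3⟩ := log_log_pos 3 le_rfl
  set G2 : ℝ := π / 2 * ε / C0 * (1 + 1 / log (log 3)) + 10 * (π / 2 * ε) with hG2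
  have hG2pos : 0 < G2 := by positivity
  refine ⟨3 + C1 * √G2, by positivity, fun N hN => ?_⟩
  have hN3 : (3 : ℝ) ≤ N := by exact_mod_cast hN
  obtain ⟨hlN, hllN⟩ := log_log_pos N hN3
  have hL1 := one_le_L N hN3
  set L : ℝ := log N / log (log N) with hL
  have hL0 : 0 < L := by linarith
  -- the large solutions
  set S : Finset ℕ := (Finset.Icc 1 N).filter fun n : ℕ => (n : ℝ) * |sin n| ≤ ε with hS
  set S' : Finset ℕ := S.filter (fun n => 4 ≤ n) with hS'
  have hcard : S.card ≤ 3 + S'.card := by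
    have h1 : S ⊆ Finset.Icc 1 3 ∪ S' := by
      intro n hn
      have h2 := (Finset.mem_filter.1 hn).1
      rw [Finset.mem_Icc] at h2
      rw [Finset.mem_union, Finset.mem_Icc, hS', Finset.mem_filter]
      by_cases h4 : 4 ≤ n
      · exact Or.inr ⟨hn, h4⟩
      · exact Or.inl ⟨h2.1, by omega⟩
    refine (Finset.card_le_card h1).trans ((Finset.card_union_le _ _).trans ?_)
    simp
  let xx : ℕ → ℚ := fun n => (n : ℚ) / (mm n : ℚ)
  let gg : ℕ → ℕ := fun n => mm n / (xx n).den
  have key : ∀ n ∈ S', ((xx n).den : ℝ) ≤ N ∧ |π - xx n| ≤ π / 2 * ε / ((xx n).den : ℝ) ^ 2 ∧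
      1 ≤ gg n ∧ (gg n : ℝ) ≤ √(G2 * L) ∧ (n : ℚ) = xx n * ((gg n : ℚ) * (xx n).den) := by
    intro n hn
    have hn4 := (Finset.mem_filter.1 hn).2
    have hn1 := Finset.mem_filter.1 (Finset.mem_filter.1 hn).1
    have hnN := (Finset.mem_Icc.1 hn1.1).2
    have hsin := hn1.2
    obtain ⟨hm1, hmn, hdist⟩ := mm_spec n hn4
    have hn0 : (0 : ℝ) < n := by have : (4 : ℝ) ≤ n := by exact_mod_cast hn4
                                 linarith
    have hm0 : (0 : ℝ) < mm n := by exact_mod_cast hm1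
    have hmQ : (mm n : ℚ) ≠ 0 := by exact_mod_cast (by omega : mm n ≠ 0)
    have hs := sin_near n (mm n) hdist
    have hx : ((xx n : ℚ) : ℝ) = n / mm n := by
      show (((n : ℚ) / (mm n : ℚ) : ℚ) : ℝ) = _
      push_cast; rfl
    have hd : |(n : ℝ) - mm n * π| ≤ π / 2 * ε / n := by
      rw [le_div_iff₀ hn0]
      have h1 : (n : ℝ) * (2 / π * |(n : ℝ) - mm n * π|) ≤ ε :=
        (mul_le_mul_of_nonneg_left hs hn0.le).trans hsin
      have h2 : |(n : ℝ) - mm n * π| * n = π / 2 * ((n : ℝ) * (2 / π * |(n : ℝ) - mm n * π|)) := by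
        field_simp
      rw [h2]
      exact mul_le_mul_of_nonneg_left h1 (by positivity)
    have hpx : |π - xx n| ≤ π / 2 * ε / (mm n : ℝ) ^ 2 := by
      rw [hx]
      have h1 : π - n / mm n = -(((n : ℝ) - mm n * π) / mm n) := by field_simp; ring
      rw [h1, abs_neg, abs_div, abs_of_pos hm0, div_le_iff₀ hm0]
      refine hd.trans ?_
      rw [sq, ← div_div, div_mul_cancel₀ _ hm0.ne']
      apply div_le_div_of_nonneg_left (by positivity) hm0
      exact_mod_cast hmn
    have hden : (xx n).den ∣ mm n := by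
      have h1 : (((xx n).den : ℕ) : ℤ) ∣ (mm n : ℤ) := by
        have h2 : xx n = Rat.divInt (n : ℤ) (mm n : ℤ) := by
          rw [Rat.divInt_eq_div]; rfl
        rw [h2]; exact Rat.den_dvd _ _
      exact_mod_cast h1
    have hgm : gg n * (xx n).den = mm n := Nat.div_mul_cancel hden
    have hdpos : 0 < (xx n).den := (xx n).pos
    have hd0 : (0 : ℝ) < (xx n).den := by exact_mod_cast hdpos
    have hg1 : 1 ≤ gg n := by
      rcases Nat.eq_zero_or_pos (gg n) with h | h
      · rw [h, zero_mul] at hgm; omega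
      · exact h
    have hg1' : (1 : ℝ) ≤ gg n := by exact_mod_cast hg1
    have hgm' : (mm n : ℝ) = gg n * (xx n).den := by exact_mod_cast hgm.symm
    have hdN : ((xx n).den : ℝ) ≤ N := by
      have h1 : (xx n).den ≤ mm n := Nat.le_of_dvd (by omega) hden
      exact_mod_cast h1.trans (hmn.trans hnN)
    refine ⟨hdN, ?_, hg1, ?_, ?_⟩
    · refine hpx.trans ?_
      apply div_le_div_of_nonneg_left (by positivity) (by positivity)
      rw [hgm']
      apply pow_le_pow_left₀ hd0.le
      nlinarith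
    · apply Real.le_sqrt_of_sq_le
      -- bound for the multiplicity
      have hpx' : (gg n : ℝ) ^ 2 * |π - xx n| * ((xx n).den : ℝ) ^ 2 ≤ π / 2 * ε := by
        rw [hgm', mul_pow] at hpx
        rw [le_div_iff₀ (by positivity)] at hpx
        linarith
      by_cases h3 : 3 ≤ (xx n).den
      · have h3' : (3 : ℝ) ≤ (xx n).den := by exact_mod_cast h3
        have hb := hB (xx n).num (xx n).den h3
        have hnd : ((xx n).num : ℝ) / ((xx n).den : ℝ) = xx n := by
          exact_mod_cast Rat.num_div_den (xx n)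
        rw [hnd] at hb
        obtain ⟨hy1, hy2⟩ := log_log_pos ((xx n).den : ℝ) h3'
        have hlm := mono_aux (log (xx n).den) (log N) (Real.log_le_log (by norm_num) h3')
          (Real.log_le_log hd0 hdN)
        have h5 : (gg n : ℝ) ^ 2 * (C0 * (log (log (xx n).den) / log (xx n).den)) ≤ π / 2 * ε := by
          refine le_trans ?_ hpx'
          have h6 : (gg n : ℝ) ^ 2 * (C0 * (log (log (xx n).den) / log (xx n).den)) =
              (gg n : ℝ) ^ 2 * (C0 * (log (log (xx n).den) / (((xx n).den : ℝ) ^ 2 * log (xx n).den))) *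
                ((xx n).den : ℝ) ^ 2 := by field_simp
          rw [h6]
          apply mul_le_mul_of_nonneg_right _ (by positivity)
          exact mul_le_mul_of_nonneg_left hb (by positivity)
        have hy0 : 0 < log ((xx n).den : ℝ) := by linarith
        have h7 : (gg n : ℝ) ^ 2 ≤ π / 2 * ε / C0 * (log (xx n).den / log (log (xx n).den)) := by
          have h8 : (gg n : ℝ) ^ 2 * (C0 * (log (log (xx n).den) / log (xx n).den)) =
              (gg n : ℝ) ^ 2 / (1 / C0 * (log (xx n).den / log (log (xx n).den))) := by field_simp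
          rw [h8, div_le_iff₀ (by positivity)] at h5
          refine h5.trans (le_of_eq ?_)
          ring
        have h9 : π / 2 * ε / C0 * (log (xx n).den / log (log (xx n).den)) ≤
            π / 2 * ε / C0 * ((1 + 1 / log (log 3)) * L) :=
          mul_le_mul_of_nonneg_left hlm (by positivity)
        have h10 : 0 ≤ 10 * (π / 2 * ε) * L := by positivity
        rw [hG2, add_mul]
        refine h7.trans (h9.trans ?_)
        have e1 : π / 2 * ε / C0 * ((1 + 1 / log (log 3)) * L) =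
          π / 2 * ε / C0 * (1 + 1 / log (log 3)) * L := by ring
        rw [e1]
        exact le_add_of_nonneg_right h10
      · have h4 : 1 / 10 ≤ |π - xx n| := by
          by_contra hcon
          push Not at hcon
          exact h3 (three_le_den _ hcon)
        have h5 : (1 : ℝ) ≤ (xx n).den := by exact_mod_cast hdpos
        have h6 : (gg n : ℝ) ^ 2 * (1 / 10) ≤ π / 2 * ε := by
          refine le_trans ?_ hpx'
          have h7 : (1 : ℝ) ≤ ((xx n).den : ℝ) ^ 2 := one_le_pow₀ h5
          have h8 : (gg n : ℝ) ^ 2 * (1 / 10) ≤ (gg n : ℝ) ^ 2 * |π - xx n| :=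
            mul_le_mul_of_nonneg_left h4 (by positivity)
          have h9 : 0 ≤ (gg n : ℝ) ^ 2 * |π - xx n| := by positivity
          exact h8.trans (le_mul_of_one_le_right h9 h7)
        have h7 : 0 ≤ π / 2 * ε / C0 * (1 + 1 / log (log 3)) := by positivity
        have h8 : (gg n : ℝ) ^ 2 ≤ G2 := by rw [hG2]; linarith
        exact h8.trans (le_mul_of_one_le_right hG2pos.le hL1)
    · have hq : (xx n) * (mm n : ℚ) = n := by
        show (n : ℚ) / (mm n : ℚ) * mm n = n
        field_simp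
      rw [← hq, ← hgm]; push_cast; ring
  set T : Finset ℚ := S'.image xx with hT
  have hTcard : (T.card : ℝ) ≤ C1 * L := by
    apply hF1 N hN3 T
    intro x hx
    obtain ⟨n, hn, rfl⟩ := Finset.mem_image.1 hx
    exact ⟨(key n hn).1, (key n hn).2.1⟩
  have hS'card : S'.card ≤ (T ×ˢ Finset.Icc 1 ⌊√(G2 * L)⌋₊).card := by
    apply Finset.card_le_card_of_injOn (fun n => (xx n, gg n))
    · intro n hn
      have hn' : n ∈ S' := hn
      rw [Finset.mem_coe, Finset.mem_product, Finset.mem_Icc]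
      exact ⟨Finset.mem_image_of_mem _ hn', (key n hn').2.2.1, Nat.le_floor (key n hn').2.2.2.1⟩
    · intro n hn n' hn' h
      have h1 : n ∈ S' := hn
      have h2 : n' ∈ S' := hn'
      simp only [Prod.mk.injEq] at h
      have e1 := (key n h1).2.2.2.2
      have e2 := (key n' h2).2.2.2.2
      rw [h.1, h.2, ← e2] at e1
      exact_mod_cast e1
  rw [Finset.card_product, Nat.card_Icc, Nat.add_sub_cancel] at hS'card
  have h1 : (S'.card : ℝ) ≤ C1 * L * √(G2 * L) := by
    have h2 : (S'.card : ℝ) ≤ (T.card : ℝ) * (⌊√(G2 * L)⌋₊ : ℝ) := by exact_mod_cast hS'card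
    refine h2.trans ?_
    apply mul_le_mul hTcard (Nat.floor_le (Real.sqrt_nonneg _)) (Nat.cast_nonneg _) (by positivity)
  have h2 : (zeros ε N : ℝ) ≤ 3 + S'.card := by
    have : zeros ε N = S.card := rfl
    rw [this]
    exact_mod_cast hcard
  have h3 : L ^ (3 / 2 : ℝ) = L * √L := by
    rw [Real.sqrt_eq_rpow, show (3 / 2 : ℝ) = 1 + 1 / 2 by norm_num, Real.rpow_add hL0, Real.rpow_one]
  have h4 : √(G2 * L) = √G2 * √L := Real.sqrt_mul hG2pos.le _
  have h5 : 1 ≤ L * √L := by
    have : 1 ≤ √L := Real.one_le_sqrt.2 hL1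
    nlinarith
  rw [h3]
  rw [h4] at h1
  calc (zeros ε N : ℝ) ≤ 3 + C1 * L * (√G2 * √L) := by linarith
    _ ≤ 3 * (L * √L) + C1 * L * (√G2 * √L) := by linarith
    _ = _ := by ring

end Pool.Agent.H11.NZ
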