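import Mathlib
import Pool.Agent.H11.NZ.Upper

set_option autoImplicit false

/-! # The number of near zeros of the sine at integers: the lower bound along a relation -/

namespace Pool.Agent.H11.NZ

open Real Pool.Agent.H447R2.PE Pool.Agent.H900.PE Filter

theorem sin_int_mul_pi_sub (x : ℝ) (q : ℤ) : |sin (x - q * π)| = |sin x| := by
  rw [Real.sin_sub_int_mul_pi, abs_mul]
  have : |((-1 : ℝ) ^ q)| = 1 := by
    rw [abs_zpow, abs_neg, abs_one, one_zpow]
  rw [this, one_mul]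

/-- The approximations given by a relation. -/
theorem approx (k : ℕ) (hk : 1 ≤ k) (a b c d : ℤ)
    (h0 : ¬ (a = 0 ∧ b = 0 ∧ c = 0 ∧ d = 0))
    (h : (a : ℝ) + b * exp (2 / (k : ℝ)) + c * π + d * (π * exp (2 / (k : ℝ))) = 0) :
    ∃ (P : ℕ → ℕ) (ρ σ : ℝ) (n₀ : ℕ), 0 < ρ ∧ 0 < σ ∧ 2 ≤ n₀ ∧ ∀ n, n₀ ≤ n →
      1 ≤ P n ∧ (P n : ℝ) ≤ 8 * ρ * A k n ∧ ρ * A k n ≤ P n ∧
      ∀ j : ℕ, |sin ((j * P n : ℕ) : ℝ)| ≤ j * (σ * E k n) := by
  have hkZ : (1 : ℤ) ≤ (k : ℤ) := by exact_mod_cast hk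
  have hk1 : (1 : ℝ) ≤ k := by exact_mod_cast hk
  have hcd := cd_ne k hk a b c d h0 h
  have hbd := bd_ne k a b c d h0 h
  set w := exp (2 / (k : ℝ)) with hw
  set ρ := |(c : ℝ) + d * w| with hρ
  set σ := |(b : ℝ) + d * π| with hσ
  have hρ0 : 0 < ρ := abs_pos.2 hcd
  have hσ0 : 0 < σ := abs_pos.2 hbd
  have hEt : Tendsto (fun n => E k n) atTop (nhds 0) := by
    have h1 : Tendsto (fun n : ℕ => 2 * exp 2 / (n.factorial : ℝ)) atTop (nhds 0) := by
      apply Tendsto.div_atTop tendsto_const_nhds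
      exact tendsto_natCast_atTop_atTop.comp factorial_tendsto_atTop
    exact squeeze_zero (fun n => (E_pos k n hk).le) (fun n => E_le k n hk) h1
  have hev1 : ∀ᶠ n in atTop, |(d : ℝ)| * E k n < ρ / 4 := by
    have h1 : Tendsto (fun n => |(d : ℝ)| * E k n) atTop (nhds 0) := by
      simpa using hEt.const_mul |(d : ℝ)|
    exact h1.eventually_lt_const (by positivity)
  have hev2 : ∀ᶠ n in atTop, σ * E k n < min (1 / 2) (ρ / 4) := by
    have h1 : Tendsto (fun n => σ * E k n) atTop (nhds 0) := by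
      simpa using hEt.const_mul σ
    exact h1.eventually_lt_const (by positivity)
  have hev3 : ∀ᶠ n : ℕ in atTop, 1 / ρ < (n.factorial : ℝ) := by
    have h1 : Tendsto (fun n : ℕ => (n.factorial : ℝ)) atTop atTop :=
      tendsto_natCast_atTop_atTop.comp factorial_tendsto_atTop
    exact h1.eventually_gt_atTop _
  obtain ⟨n₁, hn₁⟩ := ((hev1.and hev2).and hev3).exists_forall_of_atTop
  refine ⟨fun n => (a * A k n + b * B k n).natAbs, ρ, σ, n₁ + 2, hρ0, hσ0, by omega, ?_⟩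
  intro n hn
  obtain ⟨⟨hn1, hn2⟩, _⟩ := hn₁ n (by omega)
  obtain ⟨m, rfl⟩ : ∃ m, n = m + 2 := ⟨n - 2, by omega⟩
  obtain ⟨_, hfac⟩ := hn₁ m (by omega)
  set n := m + 2 with hnm
  have hfA : ((m.factorial : ℕ) : ℝ) ≤ A k n := by
    have h1 := fact_le_A k hkZ m
    have h2 : (m.factorial : ℤ) ≤ ((m + 1).factorial : ℤ) := by
      exact_mod_cast Nat.factorial_le (Nat.le_succ m)
    exact_mod_cast h2.trans h1
  have hA1 : (1 : ℝ) ≤ A k n := by
    have h2 : (1 : ℝ) ≤ ((m.factorial : ℕ) : ℝ) := by exact_mod_cast Nat.factorial_pos m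
    linarith
  have hρA : 1 ≤ ρ * A k n := by
    have h1 : 1 / ρ ≤ A k n := by linarith
    rw [div_le_iff₀ hρ0] at h1
    linarith
  have hE := (E_eq k hk n).1
  have hEpos := E_pos k n hk
  set q : ℤ := c * A k n + d * B k n with hq
  set p : ℤ := -(a * A k n + b * B k n) with hp
  set e : ℝ := (A k n : ℝ) * w - B k n with he
  have heabs : |e| = E k n := by
    have : e = (-1) ^ n * E k n := by
      rw [hE, ← mul_assoc, ← mul_pow]; norm_num
    rw [this, abs_mul, abs_pow]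
    simp [abs_of_pos hEpos]
  have hqe : (q : ℝ) = A k n * (c + d * w) - d * e := by
    rw [hq, he]; push_cast; ring
  have hlin : (q : ℝ) * π - p = -(e * (b + d * π)) := by
    rw [hq, hp, he]; push_cast
    linear_combination (A k n : ℝ) * h
  have hlin' : |(p : ℝ) - q * π| = σ * E k n := by
    have : (p : ℝ) - q * π = e * (b + d * π) := by linarith
    rw [this, abs_mul, heabs, mul_comm]
  have hAρ : |(A k n : ℝ) * (c + d * w)| = A k n * ρ := by
    rw [abs_mul, abs_of_pos (by linarith : (0 : ℝ) < A k n)]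
  have hde : |(d : ℝ) * e| ≤ ρ / 4 := by rw [abs_mul, heabs]; exact hn1.le
  have hqlow : (A k n : ℝ) * ρ * (3 / 4) ≤ |(q : ℝ)| := by
    have h1 : |(A k n : ℝ) * (c + d * w)| ≤ |(q : ℝ)| + |(d : ℝ) * e| := by
      have : (A k n : ℝ) * (c + d * w) = q + d * e := by rw [hqe]; ring
      rw [this]; exact abs_add_le _ _
    rw [hAρ] at h1
    nlinarith
  have hqup : |(q : ℝ)| ≤ 5 / 4 * ρ * A k n := by
    have h1 : |(q : ℝ)| ≤ |(A k n : ℝ) * (c + d * w)| + |(d : ℝ) * e| := by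
      rw [hqe]; exact abs_sub _ _
    rw [hAρ] at h1
    nlinarith
  have hpi3 := Real.pi_gt_three
  have hpi4 := Real.pi_lt_four
  have hσE : σ * E k n ≤ 1 / 2 := hn2.le.trans (min_le_left _ _)
  have hσE2 : σ * E k n ≤ ρ / 4 := hn2.le.trans (min_le_right _ _)
  have hPp : (((a * A k n + b * B k n).natAbs : ℕ) : ℝ) = |(p : ℝ)| := by
    rw [hp]; push_cast
    rw [abs_neg, Nat.cast_natAbs]
    push_cast
    rfl
  have hqpi : |(q : ℝ) * π| = |(q : ℝ)| * π := by rw [abs_mul, abs_of_pos Real.pi_pos]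
  have hup : |(p : ℝ)| ≤ 8 * ρ * A k n := by
    have h1 : |(p : ℝ)| ≤ |(q : ℝ) * π| + |(p : ℝ) - q * π| := by
      have := abs_add_le ((q : ℝ) * π) ((p : ℝ) - q * π)
      have e1 : (q : ℝ) * π + ((p : ℝ) - q * π) = p := by ring
      rwa [e1] at this
    rw [hlin', hqpi] at h1
    have h2 : |(q : ℝ)| * π ≤ (5 / 4 * ρ * A k n) * 4 :=
      mul_le_mul hqup hpi4.le Real.pi_pos.le (by positivity)
    nlinarith
  have hlow : ρ * A k n ≤ |(p : ℝ)| := by
    have h1 : |(q : ℝ) * π| ≤ |(p : ℝ)| + |(p : ℝ) - q * π| := by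
      have := abs_sub (p : ℝ) ((p : ℝ) - q * π)
      have e1 : (p : ℝ) - ((p : ℝ) - q * π) = q * π := by ring
      rwa [e1] at this
    rw [hlin', hqpi] at h1
    have h2 : (A k n : ℝ) * ρ * (3 / 4) * 3 ≤ |(q : ℝ)| * π :=
      mul_le_mul hqlow hpi3.le (by norm_num) (abs_nonneg _)
    nlinarith
  refine ⟨?_, ?_, ?_, ?_⟩
  · have h1 : (1 : ℝ) ≤ |(p : ℝ)| := hρA.trans hlow
    rw [← hPp] at h1
    exact_mod_cast h1
  · show (((a * A k n + b * B k n).natAbs : ℕ) : ℝ) ≤ _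
    rw [hPp]; exact hup
  · show _ ≤ (((a * A k n + b * B k n).natAbs : ℕ) : ℝ)
    rw [hPp]; exact hlow
  · intro j
    show |sin ((j * (a * A k n + b * B k n).natAbs : ℕ) : ℝ)| ≤ _
    have e1 : ((j * (a * A k n + b * B k n).natAbs : ℕ) : ℝ) = |(j : ℝ) * p| := by
      rw [Nat.cast_mul, hPp, abs_mul, Nat.abs_cast]
    have e2 : |sin (|(j : ℝ) * p|)| = |sin ((j : ℝ) * p)| := by
      rcases abs_cases ((j : ℝ) * p) with ⟨h3, _⟩ | ⟨h3, _⟩
      · rw [h3]
      · rw [h3, Real.sin_neg, abs_neg]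
    rw [e1, e2, ← sin_int_mul_pi_sub _ (j * q)]
    have e3 : (j : ℝ) * p - ((j * q : ℤ) : ℝ) * π = j * ((p : ℝ) - q * π) := by
      push_cast; ring
    rw [e3]
    refine (Real.abs_sin_le_abs).trans ?_
    rw [abs_mul, hlin', Nat.abs_cast]

theorem A_mul (k : ℕ) (hk : 1 ≤ k) (n : ℕ) (hn : 2 ≤ n) : (n : ℝ) * A k n ≤ A k (n + 1) := by
  have hkZ : (1 : ℤ) ≤ (k : ℤ) := by exact_mod_cast hk
  have hk1 : (1 : ℝ) ≤ k := by exact_mod_cast hk
  obtain ⟨m, rfl⟩ : ∃ m, n = m + 2 := ⟨n - 2, by omega⟩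
  have e1 : A k (m + 1 + 2) = (2 * ((m + 1 : ℕ) : ℤ) + 3) * k * A k (m + 1 + 1) + A k (m + 1) := rfl
  have e2 : A k (m + 2 + 1) = (2 * ((m + 1 : ℕ) : ℤ) + 3) * k * A k (m + 2) + A k (m + 1) := e1
  have h2 : (0 : ℝ) ≤ A k (m + 1) := by exact_mod_cast (A_nonneg k hkZ (m + 1)).1
  have h5 : (0 : ℝ) ≤ A k (m + 2) := by exact_mod_cast (A_nonneg k hkZ (m + 2)).1
  rw [e2]
  push_cast
  have h3 : (m : ℝ) + 2 ≤ (2 * ((m : ℝ) + 1) + 3) * k := by
    nlinarith [(Nat.cast_nonneg m : (0 : ℝ) ≤ m)]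
  have h4 : ((m : ℝ) + 2) * A k (m + 2) ≤ (2 * ((m : ℝ) + 1) + 3) * k * A k (m + 2) :=
    mul_le_mul_of_nonneg_right h3 h5
  linarith

theorem E_nA (k : ℕ) (hk : 1 ≤ k) (n : ℕ) (hn : 2 ≤ n) : E k n * (n * A k n) ≤ 2 := by
  have hkZ : (1 : ℤ) ≤ (k : ℤ) := by exact_mod_cast hk
  have h8 := E_A k hk n
  have hA : (0 : ℝ) ≤ A k n := by exact_mod_cast (A_nonneg k hkZ n).1
  have h9 : (0 : ℝ) ≤ E k (n + 1) * A k n := mul_nonneg (E_pos k (n + 1) hk).le hA
  have h10 : E k n * (n * A k n) ≤ E k n * A k (n + 1) :=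
    mul_le_mul_of_nonneg_left (A_mul k hk n hn) (E_pos k n hk).le
  linarith

theorem tendsto_div_log : Tendsto (fun y : ℝ => y / log y) atTop atTop := by
  have h1 : Tendsto (fun y : ℝ => log y / y) atTop (nhds 0) := by
    simpa using Real.isLittleO_log_id_atTop.tendsto_div_nhds_zero
  have h2 : Tendsto (fun y : ℝ => log y / y) atTop (nhdsWithin 0 (Set.Ioi 0)) := by
    apply tendsto_nhdsWithin_of_tendsto_nhds_of_eventually_within _ h1
    filter_upwards [eventually_gt_atTop 1] with y hy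
    have : 0 < log y := Real.log_pos hy
    exact Set.mem_Ioi.2 (by positivity)
  have h3 := h2.inv_tendsto_nhdsGT_zero
  refine h3.congr (fun y => ?_)
  simp [inv_div]

theorem tendsto_L : Tendsto (fun N : ℕ => log (N : ℝ) / log (log (N : ℝ))) atTop atTop :=
  tendsto_div_log.comp (Real.tendsto_log_atTop.comp tendsto_natCast_atTop_atTop)

/-- the injection -/
theorem block (ε : ℝ) (N M J : ℕ) (P : ℕ → ℕ) (hP1 : ∀ n, M / 2 < n → 1 ≤ P n)
    (hmono : ∀ n, M / 2 < n → J * P n < P (n + 1)) (hJ : 1 ≤ J) (hN : J * P M ≤ N)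
    (hz : ∀ n j, M / 2 < n → n ≤ M → 1 ≤ j → j ≤ J → ((j * P n : ℕ) : ℝ) * |sin ((j * P n : ℕ) : ℝ)| ≤ ε) :
    (M - M / 2) * J ≤ zeros ε N := by
  have hstep : ∀ n, M / 2 < n → P n ≤ P (n + 1) := fun n hn =>
    (Nat.le_mul_of_pos_left _ hJ).trans (hmono n hn).le
  have hmon : ∀ n n', M / 2 < n → n ≤ n' → P n ≤ P n' := by
    intro n n' hn hnn'
    induction n', hnn' using Nat.le_induction with
    | base => exact le_rfl
    | succ m hm ih => exact ih.trans (hstep m (by omega))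
  have h1 : ((Finset.Ioc (M / 2) M) ×ˢ (Finset.Icc 1 J)).card = (M - M / 2) * J := by
    rw [Finset.card_product, Nat.card_Ioc, Nat.card_Icc, Nat.add_sub_cancel]
  rw [← h1]
  apply Finset.card_le_card_of_injOn (fun x => x.2 * P x.1)
  · rintro ⟨n, j⟩ hx
    rw [Finset.mem_coe, Finset.mem_product, Finset.mem_Ioc, Finset.mem_Icc] at hx
    obtain ⟨⟨hn1, hn2⟩, hj1, hj2⟩ := hx
    simp only at hn1 hn2 hj1 hj2
    rw [Finset.mem_coe, Finset.mem_filter, Finset.mem_Icc]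
    refine ⟨⟨Nat.mul_pos hj1 (hP1 n hn1), ?_⟩, hz n j hn1 hn2 hj1 hj2⟩
    exact (Nat.mul_le_mul hj2 (hmon n M hn1 hn2)).trans hN
  · rintro ⟨n, j⟩ hx ⟨n', j'⟩ hx' heq
    rw [Finset.mem_coe, Finset.mem_product, Finset.mem_Ioc, Finset.mem_Icc] at hx hx'
    obtain ⟨⟨hn1, hn2⟩, hj1, hj2⟩ := hx
    obtain ⟨⟨hn1', hn2'⟩, hj1', hj2'⟩ := hx'
    simp only at hn1 hn2 hj1 hj2 hn1' hn2' hj1' hj2' heq
    have aux : ∀ n n' j j' : ℕ, M / 2 < n → n < n' → j ≤ J → 1 ≤ j' → j * P n < j' * P n' := by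
      intro n n' j j' h1 h2 h3 h4
      calc j * P n ≤ J * P n := Nat.mul_le_mul_right _ h3
        _ < P (n + 1) := hmono n h1
        _ ≤ P n' := hmon (n + 1) n' (by omega) (by omega)
        _ ≤ j' * P n' := Nat.le_mul_of_pos_left _ h4
    rcases lt_trichotomy n n' with h | h | h
    · have := aux n n' j j' hn1 h hj2 hj1'
      omega
    · subst h
      have h2 := Nat.eq_of_mul_eq_mul_right (hP1 n hn1) heq
      rw [h2]
    · have := aux n' n j' j hn1' h hj2' hj1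
      omega

theorem lower (k : ℕ) (hk : 1 ≤ k) (a b c d : ℤ)
    (h0 : ¬ (a = 0 ∧ b = 0 ∧ c = 0 ∧ d = 0))
    (h : (a : ℝ) + b * exp (2 / (k : ℝ)) + c * π + d * (π * exp (2 / (k : ℝ))) = 0)
    (ε : ℝ) (hε : 0 < ε) :
    ∃ c₀ : ℝ, 0 < c₀ ∧ ∀ᶠ N : ℕ in atTop,
      c₀ * (log N / log (log N)) ^ (3 / 2 : ℝ) ≤ zeros ε N := by
  have hkZ : (1 : ℤ) ≤ (k : ℤ) := by exact_mod_cast hk
  have hk1 : (1 : ℝ) ≤ k := by exact_mod_cast hk
  obtain ⟨P, ρ, σ, n₀, hρ, hσ, hn₀, hP⟩ := approx k hk a b c d h0 h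
  set κ : ℝ := ε / (16 * ρ * σ) with hκ
  have hκ0 : 0 < κ := by positivity
  set R : ℝ := 2 + |log (24 * ρ * (k : ℝ) ^ 2)| + log (2 * k) with hR
  have hR2 : 2 ≤ R := by
    have h1 : 0 ≤ log (2 * (k : ℝ)) := Real.log_nonneg (by linarith)
    have h2 := abs_nonneg (log (24 * ρ * (k : ℝ) ^ 2))
    linarith
  have hR0 : 0 < R := by linarith
  set θ : ℝ := 1 / R with hθ
  have hθ0 : 0 < θ := by positivity
  refine ⟨θ / 8 * √(κ * θ / 4), by positivity, ?_⟩
  have hbig : ∀ᶠ N : ℕ in atTop, 2 / θ + (2 * ((n₀ : ℝ) + 10 + 64 * κ + 8 / κ + κ)) / θ * 2 ≤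
      log (N : ℝ) / log (log (N : ℝ)) := tendsto_L.eventually_ge_atTop _
  have hbig2 : ∀ᶠ N : ℕ in atTop, exp (exp 1) ≤ (N : ℝ) :=
    tendsto_natCast_atTop_atTop.eventually_ge_atTop _
  filter_upwards [hbig, hbig2] with N hN1 hN2
  set L : ℝ := log (N : ℝ) / log (log (N : ℝ)) with hL
  have hlN : exp 1 ≤ log (N : ℝ) := by
    rw [Real.le_log_iff_exp_le (lt_of_lt_of_le (exp_pos _) hN2)]; exact hN2
  have hlN0 : 0 < log (N : ℝ) := lt_of_lt_of_le (exp_pos _) hlN
  have hllN : 1 ≤ log (log (N : ℝ)) := by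
    rw [Real.le_log_iff_exp_le hlN0]; exact hlN
  have hW : 0 ≤ 2 * ((n₀ : ℝ) + 10 + 64 * κ + 8 / κ + κ) / θ := by positivity
  have hθL2 : 2 ≤ θ * L := by
    have : 2 / θ ≤ L := by linarith
    rw [div_le_iff₀ hθ0] at this
    linarith
  have hL0 : 0 < L := by
    by_contra hcon
    push Not at hcon
    nlinarith
  set M : ℕ := ⌊θ * L⌋₊ with hM
  have hMle : (M : ℝ) ≤ θ * L := Nat.floor_le (by positivity)
  have hMge : θ * L / 2 ≤ M := by
    have := Nat.lt_floor_add_one (θ * L)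
    rw [← hM] at this
    linarith
  have hMbig : 2 * ((n₀ : ℝ) + 10 + 64 * κ + 8 / κ + κ) ≤ M := by
    have h1 : 2 * ((n₀ : ℝ) + 10 + 64 * κ + 8 / κ + κ) / θ * 2 ≤ L := by
      have : 0 < 2 / θ := by positivity
      linarith
    have h2 : 2 * ((n₀ : ℝ) + 10 + 64 * κ + 8 / κ + κ) ≤ θ * L / 2 := by
      have h3 : θ * (2 * ((n₀ : ℝ) + 10 + 64 * κ + 8 / κ + κ) / θ * 2) ≤ θ * L :=
        mul_le_mul_of_nonneg_left h1 hθ0.le
      have h4 : θ * (2 * ((n₀ : ℝ) + 10 + 64 * κ + 8 / κ + κ) / θ * 2) =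
          2 * (2 * ((n₀ : ℝ) + 10 + 64 * κ + 8 / κ + κ)) := by field_simp
      linarith
    linarith
  have hκ8 : 0 < 8 / κ := by positivity
  have hn₀0 : (0 : ℝ) ≤ n₀ := Nat.cast_nonneg _
  have hM20 : (20 : ℝ) ≤ M := by linarith
  set J : ℕ := ⌊√(κ * M / 2)⌋₊ with hJ
  have hs2 : 2 ≤ √(κ * M / 2) := by
    apply Real.le_sqrt_of_sq_le
    have : 8 / κ ≤ M := by linarith
    rw [div_le_iff₀ hκ0] at this
    linarith
  have hJle : (J : ℝ) ≤ √(κ * M / 2) := Nat.floor_le (Real.sqrt_nonneg _)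
  have hJge : √(κ * M / 2) / 2 ≤ J := by
    have := Nat.lt_floor_add_one (√(κ * M / 2))
    rw [← hJ] at this
    linarith
  have hJ1 : 1 ≤ J := by
    have : (0 : ℝ) < J := by linarith
    exact_mod_cast this
  have hJsq : (J : ℝ) ^ 2 ≤ κ * M / 2 := by
    have h1 : (J : ℝ) ^ 2 ≤ √(κ * M / 2) ^ 2 := pow_le_pow_left₀ (Nat.cast_nonneg _) hJle 2
    rwa [Real.sq_sqrt (by positivity)] at h1
  have hJM : (J : ℝ) ≤ M := by
    have h1 : (J : ℝ) ^ 2 ≤ (M : ℝ) ^ 2 := by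
      have : κ ≤ M := by linarith
      nlinarith
    exact le_of_sq_le_sq h1 (by linarith)
  -- numbers in the block
  have hblk : ∀ n : ℕ, M / 2 < n → (M : ℝ) / 2 < n := by
    intro n hn
    have h1 : M < 2 * n := by omega
    have h2 : (M : ℝ) < 2 * n := by exact_mod_cast h1
    linarith
  have hblk0 : ∀ n : ℕ, M / 2 < n → n₀ ≤ n ∧ 2 ≤ n := by
    intro n hn
    have h1 := hblk n hn
    constructor
    · have : (n₀ : ℝ) ≤ n := by linarith
      exact_mod_cast this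
    · have : (2 : ℝ) ≤ n := by linarith
      exact_mod_cast this
  have hmain : (M - M / 2) * J ≤ zeros ε N := by
    apply block ε N M J P
    · intro n hn
      exact (hP n (hblk0 n hn).1).1
    · intro n hn
      obtain ⟨hn1, hn2⟩ := hblk0 n hn
      have hnM := hblk n hn
      obtain ⟨hPn1, hPn2, hPn3, _⟩ := hP n hn1
      obtain ⟨_, _, hPs3, _⟩ := hP (n + 1) (by omega)
      have hA := A_mul k hk n hn2
      have hA0 : 0 < ρ * A k n := by
        have h1 : (1 : ℝ) ≤ P n := by exact_mod_cast hPn1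
        have h2 : (1 : ℝ) ≤ 8 * ρ * A k n := h1.trans hPn2
        nlinarith
      have hJ8 : 8 * (J : ℝ) < n := by
        have h1 : (8 * (J : ℝ)) ^ 2 < (n : ℝ) ^ 2 := by
          have h2 : 64 * κ < n := by linarith
          nlinarith
        exact lt_of_pow_lt_pow_left₀ 2 (Nat.cast_nonneg _) h1
      have h1 : (J : ℝ) * P n < P (n + 1) := by
        calc (J : ℝ) * P n ≤ J * (8 * ρ * A k n) := mul_le_mul_of_nonneg_left hPn2 (Nat.cast_nonneg _)
          _ = (8 * J) * (ρ * A k n) := by ring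
          _ < n * (ρ * A k n) := mul_lt_mul_of_pos_right hJ8 hA0
          _ = ρ * (n * A k n) := by ring
          _ ≤ ρ * A k (n + 1) := mul_le_mul_of_nonneg_left hA hρ.le
          _ ≤ P (n + 1) := hPs3
      exact_mod_cast h1
    · exact hJ1
    · -- the size
      have hM2 : 2 ≤ M := by
        have : (2 : ℝ) ≤ M := by linarith
        exact_mod_cast this
      have hMn₀ : n₀ ≤ M := by
        have : (n₀ : ℝ) ≤ M := by linarith
        exact_mod_cast this
      obtain ⟨hPM1, hPM2, _, _⟩ := hP M hMn₀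
      obtain ⟨m, hm⟩ : ∃ m, M = m + 2 := ⟨M - 2, by omega⟩
      have hApow : (A k M : ℝ) ≤ 3 * (k : ℝ) ^ 2 * (2 * k * (M : ℝ)) ^ M := by
        have h1 := A_le_pow k hk m
        rw [hm]
        push_cast
        exact h1
      have hM0 : (0 : ℝ) < M := by linarith
      have hlogM : 1 ≤ log (M : ℝ) := by
        rw [Real.le_log_iff_exp_le hM0]
        have := Real.exp_one_lt_d9
        linarith
      have hPMpos : (0 : ℝ) < P M := by exact_mod_cast hPM1
      have hJpos : (0 : ℝ) < J := by exact_mod_cast hJ1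
      have h1 : (J : ℝ) * P M ≤ M * ((24 * ρ * (k : ℝ) ^ 2) * (2 * k * (M : ℝ)) ^ M) := by
        apply mul_le_mul hJM _ hPMpos.le hM0.le
        refine hPM2.trans ?_
        have h2 : 8 * ρ * (A k M : ℝ) ≤ 8 * ρ * (3 * (k : ℝ) ^ 2 * (2 * k * (M : ℝ)) ^ M) :=
          mul_le_mul_of_nonneg_left hApow (by positivity)
        refine h2.trans (le_of_eq ?_)
        ring
      have h2 : log ((J : ℝ) * P M) ≤ R * (M * log M) := by
        refine (Real.log_le_log (by positivity) h1).trans ?_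
        have g1 : (24 * ρ * (k : ℝ) ^ 2) ≠ 0 := by positivity
        have g2 : (2 * (k : ℝ) * M) ^ M ≠ 0 := by positivity
        have g3 : (2 * (k : ℝ)) ≠ 0 := by positivity
        have g4 : (M : ℝ) ≠ 0 := by positivity
        rw [Real.log_mul g4 (mul_ne_zero g1 g2), Real.log_mul g1 g2, Real.log_pow, Real.log_mul g3 g4]
        have h14 := le_abs_self (log (24 * ρ * (k : ℝ) ^ 2))
        have h15 := abs_nonneg (log (24 * ρ * (k : ℝ) ^ 2))
        have h16 : 0 ≤ log (2 * (k : ℝ)) := Real.log_nonneg (by linarith)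
        have h17 : 1 ≤ (M : ℝ) * log M := by nlinarith
        have h18 : (M : ℝ) ≤ M * log M := by nlinarith
        have h19 : |log (24 * ρ * (k : ℝ) ^ 2)| ≤ |log (24 * ρ * (k : ℝ) ^ 2)| * (M * log M) := by
          nlinarith
        have h20 : log (2 * (k : ℝ)) * M ≤ log (2 * (k : ℝ)) * (M * log M) :=
          mul_le_mul_of_nonneg_left h18 h16
        have h21 : log (M : ℝ) ≤ M * log M := by nlinarith
        rw [hR]
        calc log (M : ℝ) + (log (24 * ρ * (k : ℝ) ^ 2) + M * (log (2 * k) + log M))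
            ≤ M * log M + (|log (24 * ρ * (k : ℝ) ^ 2)| * (M * log M) +
              (log (2 * k) * (M * log M) + M * log M)) := by
              have : (M : ℝ) * (log (2 * k) + log M) = log (2 * k) * M + M * log M := by ring
              rw [this]; linarith
          _ = _ := by ring
      have h3 : R * (M * log M) ≤ log N := by
        have h4 : (M : ℝ) ≤ L := by
          have : θ * L ≤ 1 * L := mul_le_mul_of_nonneg_right (by
            rw [hθ, div_le_one hR0]; linarith) hL0.le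
          linarith
        have h5 : L ≤ log (N : ℝ) := by
          rw [hL]
          exact div_le_self hlN0.le hllN
        have h6 : log (M : ℝ) ≤ log (log (N : ℝ)) := Real.log_le_log hM0 (h4.trans h5)
        have h7 : (M : ℝ) * log M ≤ θ * L * log (log (N : ℝ)) :=
          mul_le_mul hMle h6 (by linarith) (by positivity)
        have h8 : θ * L * log (log (N : ℝ)) = θ * log N := by
          rw [hL]; field_simp
        calc R * (M * log M) ≤ R * (θ * log N) := by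
              rw [← h8]; exact mul_le_mul_of_nonneg_left h7 hR0.le
          _ = log N := by rw [hθ]; field_simp
      have hN0 : (0 : ℝ) < N := lt_of_lt_of_le (exp_pos _) hN2
      have h4 : (J : ℝ) * P M ≤ N := by
        rw [← Real.log_le_log_iff (by positivity) hN0]
        exact h2.trans h3
      exact_mod_cast h4
    · intro n j hn hnM' hj1 hj2
      obtain ⟨hn1, hn2⟩ := hblk0 n hn
      have hnM := hblk n hn
      obtain ⟨hPn1, hPn2, hPn3, hPn4⟩ := hP n hn1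
      have hEA := E_nA k hk n hn2
      have hn0 : (0 : ℝ) < n := by linarith
      have hEpos := E_pos k n hk
      have hj0 : (0 : ℝ) ≤ j := Nat.cast_nonneg _
      have hj2' : (j : ℝ) ≤ J := by exact_mod_cast hj2
      have hjsq : (j : ℝ) ^ 2 ≤ κ * n := by
        have h1 : (j : ℝ) ^ 2 ≤ (J : ℝ) ^ 2 := pow_le_pow_left₀ hj0 hj2' 2
        nlinarith
      calc ((j * P n : ℕ) : ℝ) * |sin ((j * P n : ℕ) : ℝ)|
          ≤ (j * (8 * ρ * A k n)) * (j * (σ * E k n)) := by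
            apply mul_le_mul _ (hPn4 j) (abs_nonneg _)
            · have : (0 : ℝ) ≤ 8 * ρ * A k n := le_trans (Nat.cast_nonneg _) hPn2
              positivity
            · push_cast
              exact mul_le_mul_of_nonneg_left hPn2 hj0
        _ = (j : ℝ) ^ 2 * (8 * ρ * σ / n) * (E k n * (n * A k n)) := by field_simp
        _ ≤ (j : ℝ) ^ 2 * (8 * ρ * σ / n) * 2 := mul_le_mul_of_nonneg_left hEA (by positivity)
        _ ≤ κ * n * (8 * ρ * σ / n) * 2 := by
            apply mul_le_mul_of_nonneg_right _ (by norm_num)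
            exact mul_le_mul_of_nonneg_right hjsq (by positivity)
        _ = ε := by rw [hκ]; field_simp; ring
  have h1 : ((M - M / 2 : ℕ) : ℝ) * J ≤ zeros ε N := by exact_mod_cast hmain
  have h2 : (M : ℝ) / 2 ≤ ((M - M / 2 : ℕ) : ℝ) := by
    have h3 : M ≤ 2 * (M - M / 2) := by omega
    have h4 : (M : ℝ) ≤ 2 * ((M - M / 2 : ℕ) : ℝ) := by exact_mod_cast h3
    linarith
  have h3 : L ^ (3 / 2 : ℝ) = L * √L := by
    rw [Real.sqrt_eq_rpow, show (3 / 2 : ℝ) = 1 + 1 / 2 by norm_num, Real.rpow_add hL0, Real.rpow_one]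
  have h4 : √(κ * θ / 4) * √L ≤ √(κ * M / 2) := by
    rw [← Real.sqrt_mul (by positivity)]
    apply Real.sqrt_le_sqrt
    have : κ * (θ * L / 2) ≤ κ * M := mul_le_mul_of_nonneg_left hMge hκ0.le
    nlinarith
  rw [h3]
  calc θ / 8 * √(κ * θ / 4) * (L * √L) = (θ * L / 2) / 2 * ((√(κ * θ / 4) * √L) / 2) := by ring
    _ ≤ (M : ℝ) / 2 * (√(κ * M / 2) / 2) := by
        apply mul_le_mul (by linarith) (by linarith) (by positivity) (by positivity)
    _ ≤ ((M - M / 2 : ℕ) : ℝ) * J := mul_le_mul h2 hJge (by positivity) (by positivity)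
    _ ≤ _ := h1

/-- the dichotomy -/
theorem dichotomy (k : ℕ) (hk : 1 ≤ k) :
    LinearIndependent ℚ ![1, exp (2 / (k : ℝ)), π, π * exp (2 / (k : ℝ))] ∨
      ∀ ε : ℝ, 0 < ε → ∃ c C : ℝ, 0 < c ∧ 0 < C ∧ ∀ᶠ N : ℕ in atTop,
        c * (log N / log (log N)) ^ (3 / 2 : ℝ) ≤ zeros ε N ∧
          (zeros ε N : ℝ) ≤ C * (log N / log (log N)) ^ (3 / 2 : ℝ) := by
  by_cases h : LinearIndependent ℚ ![1, exp (2 / (k : ℝ)), π, π * exp (2 / (k : ℝ))]
  · exact Or.inl h
  · right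
    intro ε hε
    have hfew := ((Pool.Agent.H900.PE.dichotomy k hk).resolve_left h).1
    have hbd := (Pool.Agent.H447R2.PE.indep_or_bound k hk).resolve_left h
    obtain ⟨C, hC, hup⟩ := upper hfew hbd ε hε
    rw [← LinearIndependent.iff_fractionRing ℤ ℚ, Fintype.linearIndependent_iff] at h
    push Not at h
    obtain ⟨g, hg, i, hi⟩ := h
    have hsum : (g 0 : ℝ) + g 1 * exp (2 / (k : ℝ)) + g 2 * π + g 3 * (π * exp (2 / (k : ℝ))) = 0 := by
      rw [Fin.sum_univ_four] at hg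
      simpa using hg
    have h0 : ¬ (g 0 = 0 ∧ g 1 = 0 ∧ g 2 = 0 ∧ g 3 = 0) := by
      rintro ⟨h0, h1, h2, h3⟩
      fin_cases i
      · exact hi h0
      · exact hi h1
      · exact hi h2
      · exact hi h3
    obtain ⟨c₀, hc₀, hlow⟩ := lower k hk _ _ _ _ h0 hsum ε hε
    refine ⟨c₀, C, hc₀, hC, ?_⟩
    filter_upwards [hlow, eventually_ge_atTop 3] with N hN1 hN2
    exact ⟨hN1, hup N hN2⟩

end Pool.Agent.H11.NZ
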